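import Pool.Agent.H75.IL5

set_option autoImplicit false
open scoped InnerProductSpace

open Pool.Agent.H75.IL in
theorem Pool.Agent.Results.MP_81d1ca_an.Diffuse.result :
  ∀ (H : Type) [NormedAddCommGroup H] [InnerProductSpace ℂ H] [CompleteSpace H]
    (N : VonNeumannAlgebra H) (τ : (H →L[ℂ] H) → ℂ),
    (∃ ξ : ℕ → H, Summable (fun i => ‖ξ i‖ ^ 2) ∧
        ∀ x ∈ N, HasSum (fun i => ⟪ξ i, x (ξ i)⟫_ℂ) (τ x)) →
    τ 1 = 1 →
    (∀ x ∈ N, ∀ y ∈ N, τ (x * y) = τ (y * x)) →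
    (∀ x ∈ N, τ (star x * x) = 0 → x = 0) →
    (∀ p ∈ N, IsStarProjection p → p ≠ 0 →
      ∃ q ∈ N, IsStarProjection q ∧ p * q = q ∧ q ≠ 0 ∧ q ≠ p) →
    ∀ (U : Ultrafilter ℕ), (U : Filter ℕ) ≤ Filter.cofinite →
    ∀ (u v : ℕ → unitary (H →L[ℂ] H)),
      (∀ n, (u n : H →L[ℂ] H) ∈ N ∧ (v n : H →L[ℂ] H) ∈ N) →
      (∀ k l : ℤ, Filter.Tendsto
          (fun n => τ (((u n ^ k : unitary (H →L[ℂ] H)) : H →L[ℂ] H) *
                        ((v n ^ l : unitary (H →L[ℂ] H)) : H →L[ℂ] H)) -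
                    τ ((u n ^ k : unitary (H →L[ℂ] H)) : H →L[ℂ] H) *
                    τ ((v n ^ l : unitary (H →L[ℂ] H)) : H →L[ℂ] H))
          (U : Filter ℕ) (nhds 0)) →
      ∃ u' v' : ℕ → unitary (H →L[ℂ] H),
        (∀ n, (u' n : H →L[ℂ] H) ∈ N ∧ (v' n : H →L[ℂ] H) ∈ N) ∧
        Filter.Tendsto
          (fun n => τ (star ((u' n : H →L[ℂ] H) - (u n : H →L[ℂ] H)) *
                        ((u' n : H →L[ℂ] H) - (u n : H →L[ℂ] H))))
          (U : Filter ℕ) (nhds 0) ∧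
        Filter.Tendsto
          (fun n => τ (star ((v' n : H →L[ℂ] H) - (v n : H →L[ℂ] H)) *
                        ((v' n : H →L[ℂ] H) - (v n : H →L[ℂ] H))))
          (U : Filter ℕ) (nhds 0) ∧
        ∀ n (k l : ℤ),
          τ (((u' n ^ k : unitary (H →L[ℂ] H)) : H →L[ℂ] H) *
             ((v' n ^ l : unitary (H →L[ℂ] H)) : H →L[ℂ] H)) =
          τ ((u' n ^ k : unitary (H →L[ℂ] H)) : H →L[ℂ] H) *
          τ ((v' n ^ l : unitary (H →L[ℂ] H)) : H →L[ℂ] H) := by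
  intro H _ _ _ N τ ⟨ξ, hξ, hτ⟩ h1 h2 h3 hd U hU u v huv h
  have e : ∀ x ∈ N, τ x = tr ξ hξ x := fun x hx => (hτ x hx).tsum_eq.symm
  have C : Ctx N (tr ξ hξ) := ctx hd ξ hξ (by rw [← e _ (one_mem _), h1])
    (fun x hx y hy => by rw [← e _ (mul_mem hx hy), ← e _ (mul_mem hy hx), h2 x hx y hy])
    fun x hx h0 => h3 x hx (by rw [e _ (mul_mem (star_mem hx) hx), h0])
  obtain ⟨u', v', m, a, b, c⟩ := C.lift U hU u v (fun n => (huv n).1) (fun n => (huv n).2)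
    fun k l => (h k l).congr fun n => by
      rw [e _ (mul_mem (zpow_mem' _ (huv n).1 k) (zpow_mem' _ (huv n).2 l)),
        e _ (zpow_mem' _ (huv n).1 k), e _ (zpow_mem' _ (huv n).2 l)]
  refine ⟨u', v', m, a.congr fun n => ?_, b.congr fun n => ?_, fun n k l => ?_⟩
  · exact (e _ (mul_mem (star_mem (sub_mem (m n).1 (huv n).1)) (sub_mem (m n).1 (huv n).1))).symm
  · exact (e _ (mul_mem (star_mem (sub_mem (m n).2 (huv n).2)) (sub_mem (m n).2 (huv n).2))).symm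
  · rw [e _ (mul_mem (zpow_mem' _ (m n).1 k) (zpow_mem' _ (m n).2 l)),
      e _ (zpow_mem' _ (m n).1 k), e _ (zpow_mem' _ (m n).2 l), c]
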